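import Pool.Agent.Helper42.TN.GoalsT
import Pool.Agent.Helper35.T3.TAYW3

/-!
# Packet TN-TAYS (MP_a41896_nt): the Taylor frame on the hypersurfaces
-/

set_option autoImplicit false

open MvPolynomial

namespace Pool.Agent.Helper79.TN

open WeierstrassCurve Height
open Pool.Agent.Helper29.BL Pool.Agent.Helper92.Ru Pool.Agent.Helper42.SG
open Pool.Agent.Helper65.SG
open Pool.Agent.Helper68.VN hiding xs Good nz
open Pool.Agent.Helper68.T3 (TayC gsup dlt TAYP IFT)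
open Pool.Agent.Helper19.PM
open Pool.Agent.Helper42.TN
open Pool.Agent.Helper62.SGB (plc_mul plc_prod plc_cst plc_Mv plc_one plc_pos le_prod_one)
open Pool.Agent.Helper65.VN.TAYX (BX bP PlC_BX one_le_bP bet_le_bP t_TAYX)
open Pool.Agent.Helper35.T3.TAYW3 (nums num1 num2 num3 gsup_pos)

section aux

variable {K : Type} [Field K] {σ : Type}

lemma sub_nat_le (v : AbsoluteValue K ℝ) (x : K) {t D0 : ℕ} (ht : t ≤ D0) :
    v (x - (t : K)) ≤ cst v ((D0 : ℝ) + 1) * Mv v x := by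
  have hM1 : 1 ≤ Mv v x := one_le_Mv v x
  have hxM : v x ≤ Mv v x := le_max_right _ _
  by_cases hv : IsNonarchimedean v
  · rw [cst_of_nonarch hv, one_mul, sub_eq_add_neg]
    refine (hv _ _).trans (max_le hxM ?_)
    rw [v.map_neg]
    exact (IsNonarchimedean.apply_natCast_le_one hv).trans hM1
  · rw [cst_of_not_nonarch hv]
    have h1 : v (x - (t : K)) ≤ v x + v (t : K) := by
      rw [sub_eq_add_neg]
      refine (v.add_le _ _).trans ?_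
      rw [v.map_neg]
    have h2 : v (t : K) ≤ (t : ℝ) := v.apply_nat_le_self t
    have h3 : (t : ℝ) ≤ (D0 : ℝ) := by exact_mod_cast ht
    have h4 : (0 : ℝ) ≤ (D0 : ℝ) := Nat.cast_nonneg _
    nlinarith

variable [Fintype σ] [DecidableEq σ]

lemma rhoW_eq (v : AbsoluteValue K ℝ) (i1 : σ) (t : K) (ξ : σ → K) :
    rhoW (wH i1) (cenH i1 t) v ξ = min 1 (v (ξ i1 - t) / Mv v (ξ i1)) := by
  have h1 : ∀ k : Unit, ∏ i, Mv v (ξ i) ^ wH i1 k i = Mv v (ξ i1) := by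
    intro k
    rw [Finset.prod_eq_single i1]
    · simp [wH]
    · intro i _ hi
      simp [wH, hi]
    · intro h
      exact absurd (Finset.mem_univ _) h
  unfold rhoW
  congr 1
  have h2 : ∀ k : Unit, v (eval ξ (cenH i1 t k)) / ∏ i, Mv v (ξ i) ^ wH i1 k i =
      v (ξ i1 - t) / Mv v (ξ i1) := by
    intro k
    rw [h1 k]
    simp [cenH]
  simp only [h2]
  exact ciSup_const

lemma rhoW_pos (v : AbsoluteValue K ℝ) (i1 : σ) (t : K) (ξ : σ → K) (h : ξ i1 ≠ t) :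
    0 < rhoW (wH i1) (cenH i1 t) v ξ ∧ rhoW (wH i1) (cenH i1 t) v ξ ≤ 1 := by
  rw [rhoW_eq]
  refine ⟨lt_min one_pos (div_pos (v.pos (sub_ne_zero.2 h)) (Mv_pos v _)), min_le_left _ _⟩

lemma sub_le_rhoW (v : AbsoluteValue K ℝ) (i1 : σ) {t D0 : ℕ} (ht : t ≤ D0) (ξ : σ → K) :
    v (ξ i1 - (t : K)) ≤ cst v ((D0 : ℝ) + 1) *
      (rhoW (wH i1) (cenH i1 (t : K)) v ξ * Mv v (ξ i1)) := by
  have h0 := Mv_pos v (ξ i1)
  have hc : 1 ≤ cst v ((D0 : ℝ) + 1) :=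
    one_le_cst v (by have : (0 : ℝ) ≤ (D0 : ℝ) := Nat.cast_nonneg _; linarith)
  rw [rhoW_eq]
  rcases le_total 1 (v (ξ i1 - (t : K)) / Mv v (ξ i1)) with h | h
  · rw [min_eq_left h, one_mul]
    exact sub_nat_le v _ ht
  · rw [min_eq_right h, div_mul_cancel₀ _ h0.ne']
    exact le_mul_of_one_le_left (v.nonneg _) hc

end aux

section num

lemma num4 {δ b G P B1 B2 B3 m m' : ℝ} {D0 : ℕ} (hb : B1 * B2 ^ 2 * B3 ^ 2 ≤ b) (hG : 0 < G)
    (hδ0 : 0 ≤ δ) (hδ : δ ≤ B3 * m' ^ 3 * (B2 * G * P ^ D0))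
    (hm : 1 ≤ m) (hmP : m ≤ P) (hm' : 1 ≤ m') (hmP' : m' ≤ P) (h1 : 1 ≤ B1) (h2 : 1 ≤ B2)
    (h3 : 1 ≤ B3) :
    B1 * m ^ 3 * (δ ^ 2 / (b * G ^ 2 * P ^ (2 * D0 + 9))) ≤ 1 := by
  have hP1 : 1 ≤ P := hm.trans hmP
  have hP : 0 < P := by linarith
  have h0 : 0 < B1 * B2 ^ 2 * B3 ^ 2 := by positivity
  have hb0 : 0 < b := lt_of_lt_of_le h0 hb
  rw [← mul_div_assoc, div_le_one (by positivity)]
  calc B1 * m ^ 3 * δ ^ 2 ≤ B1 * m ^ 3 * (B3 * m' ^ 3 * (B2 * G * P ^ D0)) ^ 2 := by gcongr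
    _ = (B1 * B2 ^ 2 * B3 ^ 2) * G ^ 2 * (P ^ (2 * D0) * (m ^ 3 * m' ^ 6)) := by ring
    _ ≤ b * G ^ 2 * (P ^ (2 * D0) * (P ^ 3 * P ^ 6)) := by gcongr
    _ = b * G ^ 2 * P ^ (2 * D0 + 9) := by ring

end num

theorem t_TAYS (hP : TAYP) (hI : IFT) : Pool.Agent.Helper42.TN.TAYS := by
  classical
  intro K _ _ σ _ _ _ W D0
  obtain ⟨Bx, pBx, hX⟩ := t_TAYX K σ W
  choose BP pBP hBP using fun i => hP K (W i)
  obtain ⟨B2, pB2, hI2⟩ := hI K σ D0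
  -- constants
  have hcst : PlC (K := K) fun v => c2 v := plc_cst (by norm_num)
  have hD1 : (1 : ℝ) ≤ (D0 : ℝ) + 1 := by
    have : (0 : ℝ) ≤ (D0 : ℝ) := Nat.cast_nonneg _
    linarith
  have hpow : ∀ (B : AbsoluteValue K ℝ → ℝ), PlC B → ∀ m : ℕ, PlC (K := K) fun v => B v ^ m := by
    intro B hB m
    have := plc_prod (K := K) (Finset.range m) (fun _ v => B v) (fun _ _ => hB)
    simpa using this
  obtain ⟨BF, hBF⟩ : ∃ BF : AbsoluteValue K ℝ → ℝ, ∀ v, BF v = c2 v * cst v ((D0 : ℝ) + 1) :=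
    ⟨_, fun _ => rfl⟩
  have pBF : PlC BF := by
    have e : BF = fun v => c2 v * cst v ((D0 : ℝ) + 1) := funext hBF
    rw [e]; exact plc_mul hcst (plc_cst hD1)
  obtain ⟨B3, hB3⟩ : ∃ B3 : AbsoluteValue K ℝ → ℝ, ∀ v, B3 v = BX W v * ∏ i, BP i v :=
    ⟨_, fun _ => rfl⟩
  have pB3 : PlC B3 := by
    have e : B3 = fun v => BX W v * ∏ i, BP i v := funext hB3
    rw [e]; exact plc_mul (PlC_BX W) (plc_prod _ _ fun i _ => pBP i)
  refine ⟨fun v => Bx v * B3 v ^ 3 * B2 v ^ 2 * BF v * 1,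
    plc_mul (plc_mul (plc_mul (plc_mul pBx (hpow _ pB3 3)) (hpow _ pB2 2)) pBF) plc_one, ?_⟩
  intro n ξ ψ g a i1 t hia ht hξt hψ hg0 hg1 hg2
  obtain ⟨X, Ψ, hT, hXN⟩ := hX n ξ ψ hψ
  obtain ⟨κ, hκ⟩ : ∃ κ : Fin n → K, ∀ j, κ j = 4 * ψ j a ^ 2 := ⟨_, fun _ => rfl⟩
  have hκ0 : ∀ j, κ j ≠ 0 := by
    intro j
    rw [hκ]
    exact mul_ne_zero (by norm_num) (pow_ne_zero _ (hψ j a).2)
  choose y hy0 hyg hyδ hyN using fun j => hI2 (Fin n × σ) (g j) (ξ j) a (κ j)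
    (fun i => MvPowerSeries.C (4 * ψ j i ^ 2) * MvPowerSeries.X (j, i)) (hg0 j) (hg1 j)
    (mul_ne_zero (hκ0 j) (hg2 j)) (fun i => by simp)
  choose P hP1 hP2 hP3 using fun j => hBP a (Fin n × σ) (ξ j a) (ψ j a) (y j) (hψ j a).1 (hy0 j)
  obtain ⟨X', hX'⟩ : ∃ X' : Fin n → σ → MvPowerSeries (Fin n × σ) K, ∀ j i, X' j i =
      if i = a then MvPowerSeries.C (ξ j a) + MvPowerSeries.C (κ j) * y j else X j i :=
    ⟨_, fun _ _ => rfl⟩
  obtain ⟨Ψ', hΨ'⟩ : ∃ Ψ' : Fin n → σ → MvPowerSeries (Fin n × σ) K, ∀ j i, Ψ' j i =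
      if i = a then P j else Ψ j i := ⟨_, fun _ _ => rfl⟩
  simp only [← hκ] at hP1 hP3
  have hTN : TayN W ξ ψ a g X' Ψ' := by
    refine { on := ?_, cX := ?_, cst := ?_, eqX := ?_, rel := ?_ }
    · intro j i
      rw [hX', hΨ']
      by_cases h : i = a
      · rw [if_pos h, if_pos h, h]
        exact hP1 j
      · rw [if_neg h, if_neg h]
        exact hT.on j i
    · intro j i
      rw [hX']
      by_cases h : i = a
      · rw [if_pos h, h, map_add, map_mul, hy0]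
        simp
      · rw [if_neg h, hT.eqX]
        simp
    · intro j i
      rw [hΨ']
      by_cases h : i = a
      · rw [if_pos h, h]
        exact hP2 j
      · rw [if_neg h]
        exact hT.cst j i
    · intro j i hji
      rw [hX', if_neg hji]
      exact hT.eqX j i
    · intro j
      have e : X' j = fun i => MvPowerSeries.C (ξ j i) + if i = a then MvPowerSeries.C (κ j) * y j
          else MvPowerSeries.C (4 * ψ j i ^ 2) * MvPowerSeries.X (j, i) := by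
        funext i
        rw [hX']
        by_cases h : i = a
        · rw [if_pos h, if_pos h, h]
        · rw [if_neg h, if_neg h, hT.eqX]
      rw [e]
      exact hyg j
  refine ⟨X', Ψ', hTN, ?_⟩
  intro v
  obtain ⟨b, hb⟩ : ∃ b : ℝ, b = Bx v * B3 v ^ 3 * B2 v ^ 2 * BF v * 1 := ⟨_, rfl⟩
  have hx1 := pBx.one_le v
  have h31 := pB3.one_le v
  have h21 := pB2.one_le v
  have hF1 := pBF.one_le v
  have hBX1 := (PlC_BX W).one_le v
  have hBPp : ∀ i, BP i v ≤ ∏ i, BP i v := fun i =>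
    le_prod_one Finset.univ (fun i => BP i v) (fun i _ => (pBP i).one_le v) (Finset.mem_univ i)
  have hPr1 : 1 ≤ ∏ i, BP i v := ((pBP a).one_le v).trans (hBPp a)
  have hBX3 : BX W v ≤ B3 v := by
    rw [hB3]; exact le_mul_of_one_le_right (by linarith) hPr1
  have hBP3 : ∀ i, BP i v ≤ B3 v := fun i => by
    rw [hB3]; exact (hBPp i).trans (le_mul_of_one_le_left (by linarith) hBX1)
  obtain ⟨n1, n2, n3, n4, n5, n6, n7⟩ := nums hx1 h31 h21 hF1 (le_refl (1 : ℝ))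
  rw [← hb] at n1 n2 n3 n4 n5 n6 n7
  have hb0 : 0 < b := by linarith
  have hbX : BX W v * B2 v ^ 2 * B3 v ^ 2 ≤ b := by
    refine le_trans ?_ n5
    have : 0 ≤ B2 v ^ 2 * B3 v ^ 2 := by positivity
    calc BX W v * B2 v ^ 2 * B3 v ^ 2 = BX W v * (B2 v ^ 2 * B3 v ^ 2) := by ring
      _ ≤ B3 v * (B2 v ^ 2 * B3 v ^ 2) := mul_le_mul_of_nonneg_right hBX3 this
      _ = _ := by ring
  -- the points
  have hM1 : ∀ j i, 1 ≤ Mv v (ξ j i) := fun j i => one_le_Mv v _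
  have hM0 : ∀ j i, 0 < Mv v (ξ j i) := fun j i => Mv_pos v _
  obtain ⟨Pm, hPm⟩ : ∃ Pm : Fin n → ℝ, ∀ j, Pm j = ∏ i, Mv v (ξ j i) := ⟨_, fun _ => rfl⟩
  have hMP : ∀ j i, Mv v (ξ j i) ≤ Pm j := fun j i => by
    rw [hPm]
    exact le_prod_one Finset.univ (fun i => Mv v (ξ j i)) (fun i _ => hM1 j i)
      (Finset.mem_univ i)
  have hPm1 : ∀ j, 1 ≤ Pm j := fun j => (hM1 j a).trans (hMP j a)
  have hPm0 : ∀ j, 0 < Pm j := fun j => by have := hPm1 j; linarith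
  have hgne : ∀ j, g j ≠ 0 := by
    intro j h
    have := hg2 j
    rw [h] at this
    simp at this
  obtain ⟨G, hGd⟩ : ∃ G : Fin n → ℝ, ∀ j, G j = gsup v (g j) := ⟨_, fun _ => rfl⟩
  have hG : ∀ j, 0 < G j := fun j => by rw [hGd]; exact gsup_pos v (hgne j)
  obtain ⟨δ, hδ⟩ : ∃ δ : Fin n → ℝ, ∀ j, δ j = v (κ j * eval (ξ j) (pderiv a (g j))) :=
    ⟨_, fun _ => rfl⟩
  have hdl : ∀ j, v (dlt (g j) a (ξ j) (ψ j)) = δ j := by
    intro j
    rw [hδ, hκ]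
    rfl
  have hδ0 : ∀ j, 0 < δ j := by
    intro j
    rw [hδ]; exact v.pos (mul_ne_zero (hκ0 j) (hg2 j))
  obtain ⟨Γ, hΓ⟩ : ∃ Γ : Fin n → ℝ, ∀ j, Γ j = B2 v * G j * Pm j ^ D0 := ⟨_, fun _ => rfl⟩
  have hΓ0 : ∀ j, 0 < Γ j := by
    intro j
    rw [hΓ]
    have := hG j
    have := hPm0 j
    positivity
  have hδ1 : ∀ j, δ j ≤ v (κ j) * Γ j := by
    intro j
    have := hyδ j v
    rw [← hδ, ← hGd, ← hPm, ← hΓ] at this
    exact this
  have h4ψ : ∀ j i, v (4 * ψ j i ^ 2) ≤ BX W v * Mv v (ξ j i) ^ 3 := by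
    intro j i
    obtain ⟨-, -, -, hq, -⟩ := tay_est (W i) v (bP W v) (bet_le_bP W v i) (ξ j i) (ψ j i)
      (hψ j i).1
    refine hq.trans (mul_le_mul_of_nonneg_right ?_ (pow_pos (hM0 j i) 3).le)
    have := pow_le_pow_right₀ (one_le_c2 v) (show 6 ≤ 10 by norm_num)
    exact mul_le_mul_of_nonneg_right this (by have := one_le_bP W v; linarith)
  obtain ⟨S, hS⟩ : ∃ S : Fin n → ℝ, ∀ j, S j = B3 v * Mv v (ξ j a) ^ 3 := ⟨_, fun _ => rfl⟩
  have hS1 : ∀ j, 1 ≤ S j := by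
    intro j
    rw [hS]; exact one_le_mul_of_one_le_of_one_le h31 (one_le_pow₀ (hM1 j a))
  have hκS : ∀ j, v (κ j) ≤ S j := by
    intro j
    rw [hκ, hS]
    exact (h4ψ j a).trans (mul_le_mul_of_nonneg_right hBX3 (pow_pos (hM0 j a) 3).le)
  have hδS : ∀ j, δ j ≤ S j * Γ j := fun j =>
    (hδ1 j).trans (mul_le_mul_of_nonneg_right (hκS j) (hΓ0 j).le)
  -- the radii
  have hρ : ∀ j, 0 < rhoW (wH i1) (cenH i1 (t j : K)) v (ξ j) ∧
      rhoW (wH i1) (cenH i1 (t j : K)) v (ξ j) ≤ 1 := fun j => rhoW_pos v i1 _ _ (hξt j)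
  obtain ⟨ρ, hρd⟩ : ∃ ρ : Fin n → ℝ, ∀ j, ρ j = rhoW (wH i1) (cenH i1 (t j : K)) v (ξ j) :=
    ⟨_, fun _ => rfl⟩
  have hρ0 : ∀ j, 0 < ρ j := fun j => by rw [hρd]; exact (hρ j).1
  have hρ1 : ∀ j, ρ j ≤ 1 := fun j => by rw [hρd]; exact (hρ j).2
  obtain ⟨r, hr⟩ : ∃ r : Fin n × σ → ℝ,
    r = radN (wH i1) (fun j => cenH i1 (t j : K)) (2 * D0 + 9) g a b v ξ ψ := ⟨_, rfl⟩
  obtain ⟨R, hR⟩ : ∃ R : Fin n → ℝ, ∀ j, R j =
    δ j ^ 2 / (b * G j ^ 2 * Pm j ^ (2 * D0 + 9)) := ⟨_, fun _ => rfl⟩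
  have hR0 : ∀ j, 0 < R j := by
    intro j
    rw [hR]
    have := hG j
    have := hPm0 j
    have := hδ0 j
    positivity
  have hr1 : ∀ j i, r (j, i) = ρ j * R j := by
    intro j i
    rw [hr, hR]
    unfold radN
    rw [hdl, ← hGd, ← hPm, ← hρd]
  have hrR : ∀ j i, r (j, i) ≤ R j := by
    intro j i
    rw [hr1]
    exact mul_le_of_le_one_left (hR0 j).le (hρ1 j)
  have hrpos : ∀ h, 0 < r h := by
    rintro ⟨j, i⟩
    rw [hr1]
    exact mul_pos (hρ0 j) (hR0 j)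
  have hrX : ∀ h : Fin n × σ, r h ≤ 1 / (Bx v * Mv v (ξ h.1 h.2) ^ 2) := by
    rintro ⟨j, i⟩
    refine (hrR j i).trans ?_
    rw [hR]
    refine num3 (m' := Mv v (ξ j a)) (B2 := B2 v) (B3 := B3 v) n6 (hG j) (hδ0 j).le ?_ (hM1 j i)
      (hMP j i) (hM1 j a) (hMP j a) hx1 h21 h31
    rw [← hS, ← hΓ]
    exact hδS j
  have NF : NFr v (NPS (K := K) v r) := nfr_nps v hrpos
  have alg : ∀ c : K, (MvPowerSeries.C c : MvPowerSeries (Fin n × σ) K) =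
      algebraMap K (MvPowerSeries (Fin n × σ) K) c := by
    intro c
    rw [MvPowerSeries.algebraMap_apply]
    rfl
  -- the implicit function
  have hyn : ∀ j, NPS v r (y j) (δ j / (Γ j * S j ^ 2)) := by
    intro j
    have h := hyN j v r (S j) hrpos (hS1 j) (hκS j) (by
      intro i _
      rw [← hδ, ← hGd, ← hPm, ← hΓ]
      have h1 := NF.mul _ _ _ _ (NF.const (4 * ψ j i ^ 2)) (nps_X hrpos (j, i))
      rw [← alg] at h1
      refine NF.mono _ _ _ h1 ?_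
      refine (mul_le_mul_of_nonneg_left (hrR j i) (v.nonneg _)).trans ?_
      rw [hR, hΓ, hS]
      have h2 : 0 ≤ δ j ^ 2 / (b * G j ^ 2 * Pm j ^ (2 * D0 + 9)) := by
        rw [← hR]; exact (hR0 j).le
      refine (mul_le_mul_of_nonneg_right (h4ψ j i) h2).trans ?_
      exact num1 hbX (hG j) (hM1 j i) (hMP j i) (hM1 j a) (hMP j a) hBX1 h21 h31)
    rw [← hδ, ← hGd, ← hPm, ← hΓ] at h
    exact h
  have hBPM : ∀ j, BP a v * Mv v (ξ j a) ^ 2 ≤ S j := by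
    intro j
    rw [hS]
    have h1 : 0 < BP a v := plc_pos (pBP a) v
    have h2 := pow_le_pow_right₀ (hM1 j a) (show 2 ≤ 3 by norm_num)
    exact mul_le_mul (hBP3 a) h2 (pow_pos (hM0 j a) 2).le (by linarith)
  have hBPM0 : ∀ j, 0 < BP a v * Mv v (ξ j a) ^ 2 := fun j =>
    mul_pos (plc_pos (pBP a) v) (pow_pos (hM0 j a) 2)
  have hq : ∀ j, NPS v r (MvPowerSeries.C (ξ j a) + MvPowerSeries.C (κ j) * y j)
      (BP a v * Mv v (ξ j a)) ∧ NPS v r (P j) (BP a v * Mv v (ξ j a) ^ 2) := fun j =>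
    hP3 j v r hrpos (NF.mono _ _ _ (hyn j) (num2 (hδS j) (hBPM j) (hΓ0 j) (hBPM0 j)))
  have hnew : ∀ j i, NPS v r (X' j i) (b * Mv v (ξ j i)) ∧
      NPS v r (Ψ' j i) (b * Mv v (ξ j i) ^ 2) := by
    intro j i
    rw [hX', hΨ']
    by_cases h : i = a
    · rw [if_pos h, if_pos h, h]
      refine ⟨NF.mono _ _ _ (hq j).1 ?_, NF.mono _ _ _ (hq j).2 ?_⟩
      · exact mul_le_mul_of_nonneg_right ((hBP3 a).trans n4) (hM0 j a).le
      · exact mul_le_mul_of_nonneg_right ((hBP3 a).trans n4) (pow_pos (hM0 j a) 2).le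
    · rw [if_neg h, if_neg h]
      obtain ⟨h1, h2⟩ := hXN v r (fun h => ⟨hrpos h, hrX h⟩) j i
      refine ⟨NF.mono _ _ _ h1 ?_, NF.mono _ _ _ h2 ?_⟩
      · exact mul_le_mul_of_nonneg_right n3 (hM0 j i).le
      · exact mul_le_mul_of_nonneg_right n3 (pow_pos (hM0 j i) 2).le
  beta_reduce
  rw [← hb, ← hr]
  refine ⟨hρ, hrpos, hnew, ?_⟩
  intro j k
  have hprod : ∏ i, (b * Mv v (ξ j i)) ^ wH i1 k i = b * Mv v (ξ j i1) := by
    rw [Finset.prod_eq_single i1]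
    · simp [wH]
    · intro i _ hi
      simp [wH, hi]
    · intro h
      exact absurd (Finset.mem_univ _) h
  rw [hprod, ← hρd]
  have e : aeval (X' j) (cenH i1 (t j : K) k) =
      algebraMap K (MvPowerSeries (Fin n × σ) K) (ξ j i1 - (t j : K)) +
        algebraMap K (MvPowerSeries (Fin n × σ) K) (4 * ψ j i1 ^ 2) *
          MvPowerSeries.X (j, i1) := by
    unfold cenH
    rw [map_sub, aeval_X, aeval_C, hTN.eqX j i1 hia, alg, alg, map_sub]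
    ring
  rw [e]
  have hT0 : 0 < ρ j * Mv v (ξ j i1) := mul_pos (hρ0 j) (hM0 j i1)
  have hc1 : 1 ≤ cst v ((D0 : ℝ) + 1) := one_le_cst v hD1
  have k1 : NPS v r (algebraMap K (MvPowerSeries (Fin n × σ) K) (ξ j i1 - (t j : K)))
      (cst v ((D0 : ℝ) + 1) * (ρ j * Mv v (ξ j i1))) := by
    refine NF.mono _ _ _ (NF.const _) ?_
    rw [hρd]
    exact sub_le_rhoW v i1 (ht j) (ξ j)
  have k2 : NPS v r (algebraMap K (MvPowerSeries (Fin n × σ) K) (4 * ψ j i1 ^ 2) *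
      MvPowerSeries.X (j, i1)) (cst v ((D0 : ℝ) + 1) * (ρ j * Mv v (ξ j i1))) := by
    refine NF.mono _ _ _ (NF.mul _ _ _ _ (NF.const _) (nps_X hrpos (j, i1))) ?_
    rw [hr1]
    have h1 : v (4 * ψ j i1 ^ 2) * R j ≤ 1 := by
      refine (mul_le_mul_of_nonneg_right (h4ψ j i1) (hR0 j).le).trans ?_
      rw [hR]
      refine num4 (m' := Mv v (ξ j a)) hbX (hG j) (hδ0 j).le ?_ (hM1 j i1) (hMP j i1)
        (hM1 j a) (hMP j a) hBX1 h21 h31
      rw [← hS, ← hΓ]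
      exact hδS j
    calc v (4 * ψ j i1 ^ 2) * (ρ j * R j) = ρ j * (v (4 * ψ j i1 ^ 2) * R j) := by ring
      _ ≤ ρ j * 1 := mul_le_mul_of_nonneg_left h1 (hρ0 j).le
      _ ≤ ρ j * Mv v (ξ j i1) := mul_le_mul_of_nonneg_left (hM1 j i1) (hρ0 j).le
      _ ≤ cst v ((D0 : ℝ) + 1) * (ρ j * Mv v (ξ j i1)) := le_mul_of_one_le_left hT0.le hc1
  refine NF.mono _ _ _ (frame_add NF k1 k2) ?_
  calc c2 v * (cst v ((D0 : ℝ) + 1) * (ρ j * Mv v (ξ j i1)))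
      = BF v * (ρ j * Mv v (ξ j i1)) := by rw [hBF]; ring
    _ ≤ b * (ρ j * Mv v (ξ j i1)) := mul_le_mul_of_nonneg_right n2 hT0.le
    _ = ρ j * (b * Mv v (ξ j i1)) := by ring

end Pool.Agent.Helper79.TN
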