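import Pool.Agent.Helper92.TN.GoalsH
import Pool.Agent.Helper73.T3.ELM

/-!
# Packet TN-ELMW (MP_a41896_nt): elimination by a dimension count
-/

set_option autoImplicit false

open MvPolynomial

noncomputable section

namespace Pool.Agent.Helper79.TN.ELMW

open Pool.Agent.Helper92.TN
open Pool.Agent.Helper73.T3.ELM (A1 one_mem_A1 self_mem_A1 pow_mem_A1 core pow_le_span)

variable {κ L : Type} [Field κ] [Field L] [Algebra κ L]

/-- polynomials in the `z i` of degrees `≤ 1` -/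
def AZ (κ : Type) {L ι : Type} [Field κ] [Field L] [Algebra κ L] [Fintype ι] (z : ι → L) :
    Submodule κ L := ∏ i, A1 κ (z i)

theorem prod_mem_prod {ι : Type} (s : Finset ι) (S : ι → Submodule κ L) (x : ι → L)
    (h : ∀ i ∈ s, x i ∈ S i) : ∏ i ∈ s, x i ∈ ∏ i ∈ s, S i := by
  classical
  induction s using Finset.induction_on with
  | empty =>
    rw [Finset.prod_empty, Finset.prod_empty]
    exact Submodule.one_le.1 le_rfl
  | insert a s ha ih =>
    rw [Finset.prod_insert ha, Finset.prod_insert ha]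
    exact Submodule.mul_mem_mul (h a (Finset.mem_insert_self a s))
      (ih fun i hi => h i (Finset.mem_insert_of_mem hi))

theorem mul_mem_prod {ι : Type} (s : Finset ι) (S T : ι → Submodule κ L) (l : ι → L)
    (h : ∀ i ∈ s, ∀ p ∈ S i, l i * p ∈ T i) :
    ∀ u ∈ ∏ i ∈ s, S i, (∏ i ∈ s, l i) * u ∈ ∏ i ∈ s, T i := by
  classical
  induction s using Finset.induction_on with
  | empty =>
    intro u hu
    rw [Finset.prod_empty] at hu ⊢
    rw [Finset.prod_empty, one_mul]
    exact hu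
  | insert a s ha ih =>
    intro u hu
    rw [Finset.prod_insert ha] at hu ⊢
    rw [Finset.prod_insert ha]
    refine Submodule.mul_induction_on hu ?_ ?_
    · intro p hp q hq
      rw [mul_mul_mul_comm]
      exact Submodule.mul_mem_mul (h a (Finset.mem_insert_self a s) p hp)
        (ih (fun i hi => h i (Finset.mem_insert_of_mem hi)) q hq)
    · intro p q hp hq
      rw [mul_add]
      exact Submodule.add_mem _ hp hq

theorem AZ_pow {ι : Type} [Fintype ι] (z : ι → L) (N : ℕ) :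
    (AZ κ z) ^ N = ∏ i, (A1 κ (z i)) ^ N := by
  unfold AZ
  rw [Finset.prod_pow]

theorem mon_mem {ι : Type} [Fintype ι] (z : ι → L) (N : ℕ) (a : ι → ℕ) (h : ∀ i, a i ≤ N) :
    ∏ i, z i ^ a i ∈ (AZ κ z) ^ N := by
  rw [AZ_pow]
  exact prod_mem_prod _ _ _ fun i _ => pow_mem_A1 _ _ _ (h i)

theorem aeval_mem {ι : Type} [Fintype ι] (z : ι → L) (Q : MvPolynomial ι κ) (N : ℕ)
    (h : ∀ i, degreeOf i Q ≤ N) : aeval z Q ∈ (AZ κ z) ^ N := by
  rw [aeval_def, eval₂_eq']
  refine Submodule.sum_mem _ fun d hd => ?_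
  rw [← Algebra.smul_def]
  refine Submodule.smul_mem _ _ (mon_mem z N _ fun i => ?_)
  exact degreeOf_le_iff.1 (h i) d hd

theorem opt_exp {ι : Type} (z : ι → L) (c : L) (P : MvPolynomial (Option ι) κ) (N : ℕ)
    (hN : degreeOf none P ≤ N) :
    aeval (fun o : Option ι => o.elim c z) P =
      ∑ i ∈ Finset.range (N + 1), aeval z ((optionEquivLeft κ ι P).coeff i) * c ^ i := by
  have h1 : ∀ Q : MvPolynomial (Option ι) κ, aeval (fun o : Option ι => o.elim c z) Q =
      Polynomial.eval₂ ((aeval z : MvPolynomial ι κ →ₐ[κ] L) : MvPolynomial ι κ →+* L) c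
        (optionEquivLeft κ ι Q) := by
    intro Q
    induction Q using MvPolynomial.induction_on with
    | C a =>
      rw [optionEquivLeft_C, Polynomial.eval₂_C, aeval_C]
      simp
    | add p q hp hq => rw [map_add, map_add, Polynomial.eval₂_add, hp, hq]
    | mul_X p o hp =>
      rw [map_mul, map_mul, Polynomial.eval₂_mul, hp, aeval_X]
      cases o with
      | none => rw [optionEquivLeft_X_none, Polynomial.eval₂_X]; rfl
      | some i =>
        rw [optionEquivLeft_X_some, Polynomial.eval₂_C]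
        simp
  rw [h1, Polynomial.eval₂_eq_sum_range' _ (n := N + 1)
    (by rw [natDegree_optionEquivLeft]; omega)]
  rfl

theorem deg_coeff {ι : Type} (P : MvPolynomial (Option ι) κ) (N : ℕ)
    (h : ∀ o, degreeOf o P ≤ N) (i : ℕ) (j : ι) :
    degreeOf j ((optionEquivLeft κ ι P).coeff i) ≤ N := by
  rw [degreeOf_le_iff]
  intro m hm
  rw [mem_support_coeff_optionEquivLeft] at hm
  have := degreeOf_le_iff.1 (h (some j)) _ hm
  simpa using this

theorem rel_core {ι : Type} [Fintype ι] (z : ι → L) (f : L) (d : ℕ)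
    (hz : AlgebraicIndependent κ z) (h : Rw κ z f d) :
    ∃ (u : ℕ) (l : L), u ≤ d ∧ l ≠ 0 ∧ ∀ (M : ℕ) (p : L), p ∈ (A1 κ f) ^ M →
      l ^ M * p ∈ ((AZ κ z) ^ d) ^ M *
        Submodule.span κ (Set.range fun i : Fin u => f ^ (i : ℕ)) := by
  obtain ⟨P, hP, hd, h0⟩ := h
  rw [opt_exp z f P d (hd none)] at h0
  refine core ((AZ κ z) ^ d) f d (fun i => aeval z ((optionEquivLeft κ ι P).coeff i)) ?_ ?_ h0
  · intro i
    exact aeval_mem z _ d fun j => deg_coeff P d hd i j
  · have h1 : optionEquivLeft κ ι P ≠ 0 := by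
      intro h2
      exact hP ((map_eq_zero_iff _ (optionEquivLeft κ ι).injective).1 h2)
    refine ⟨(optionEquivLeft κ ι P).natDegree, ?_, ?_⟩
    · rw [natDegree_optionEquivLeft]
      exact hd none
    · intro h2
      have h3 : (optionEquivLeft κ ι P).coeff (optionEquivLeft κ ι P).natDegree = 0 :=
        (map_eq_zero_iff _ hz).1 h2
      exact h1 (Polynomial.leadingCoeff_eq_zero.1 h3)

theorem G_core {s : ℕ} (f : Fin s → L) (y : L) (D : ℕ) (G : MvPolynomial (Option (Fin s)) κ)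
    (hd : ∀ o, degreeOf o G ≤ D) (h0 : aeval (fun o : Option (Fin s) => o.elim y f) G = 0)
    (hc : ∃ c : L, aeval (fun o : Option (Fin s) => o.elim c f) G ≠ 0) :
    ∃ (u : ℕ) (l : L), u ≤ D ∧ l ≠ 0 ∧ ∀ (M : ℕ) (p : L), p ∈ (A1 κ y) ^ M →
      l ^ M * p ∈ ((AZ κ f) ^ D) ^ M *
        Submodule.span κ (Set.range fun i : Fin u => y ^ (i : ℕ)) := by
  rw [opt_exp f y G D (hd none)] at h0
  refine core ((AZ κ f) ^ D) y D (fun i => aeval f ((optionEquivLeft κ (Fin s) G).coeff i)) ?_ ?_ h0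
  · intro i
    exact aeval_mem f _ D fun j => deg_coeff G D hd i j
  · obtain ⟨c, hc⟩ := hc
    by_contra hcon
    push Not at hcon
    apply hc
    rw [opt_exp f c G D (hd none)]
    refine Finset.sum_eq_zero fun i hi => ?_
    rw [hcon i (Nat.lt_succ_iff.1 (Finset.mem_range.1 hi)), zero_mul]

/-! ## Numbers of generators -/

/-- `S` is contained in the span of at most `n` elements -/
def Sp (S : Submodule κ L) (n : ℕ) : Prop :=
  ∃ T : Finset L, T.card ≤ n ∧ S ≤ Submodule.span κ (T : Set L)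

theorem Sp.mono {S : Submodule κ L} {m n : ℕ} (h : Sp S m) (hmn : m ≤ n) : Sp S n := by
  obtain ⟨T, h1, h2⟩ := h
  exact ⟨T, h1.trans hmn, h2⟩

theorem Sp.mul {S S' : Submodule κ L} {m n : ℕ} (h : Sp S m) (h' : Sp S' n) :
    Sp (S * S') (m * n) := by
  classical
  obtain ⟨T, h1, h2⟩ := h
  obtain ⟨T', h1', h2'⟩ := h'
  refine ⟨Finset.image (fun p : L × L => p.1 * p.2) (T ×ˢ T'), ?_, ?_⟩
  · refine Finset.card_image_le.trans ?_
    rw [Finset.card_product]
    exact Nat.mul_le_mul h1 h1'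
  · refine (mul_le_mul' h2 h2').trans ?_
    rw [Submodule.span_mul_span]
    refine Submodule.span_mono ?_
    rintro _ ⟨a, ha, b, hb, rfl⟩
    rw [Finset.mem_coe, Finset.mem_image]
    exact ⟨(a, b), Finset.mem_product.2 ⟨ha, hb⟩, rfl⟩

theorem Sp.one : Sp (1 : Submodule κ L) 1 := by
  refine ⟨{1}, by simp, ?_⟩
  rw [Submodule.one_le]
  exact Submodule.subset_span (by simp)

theorem Sp.prod {ι : Type} (s : Finset ι) (S : ι → Submodule κ L) (n : ι → ℕ)
    (h : ∀ i ∈ s, Sp (S i) (n i)) : Sp (∏ i ∈ s, S i) (∏ i ∈ s, n i) := by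
  classical
  induction s using Finset.induction_on with
  | empty =>
    rw [Finset.prod_empty, Finset.prod_empty]
    exact Sp.one
  | insert a s ha ih =>
    rw [Finset.prod_insert ha, Finset.prod_insert ha]
    exact (h a (Finset.mem_insert_self a s)).mul (ih fun i hi => h i (Finset.mem_insert_of_mem hi))

theorem Sp.range (u : ℕ) (f : Fin u → L) : Sp (Submodule.span κ (Set.range f)) u := by
  classical
  refine ⟨Finset.univ.image f, ?_, ?_⟩
  · refine Finset.card_image_le.trans ?_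
    rw [Finset.card_univ, Fintype.card_fin]
  · rw [Finset.coe_image, Finset.coe_univ, Set.image_univ]

theorem Sp.AZ {ι : Type} [Fintype ι] (z : ι → L) (N : ℕ) :
    Sp ((AZ κ z) ^ N) ((N + 1) ^ Fintype.card ι) := by
  rw [AZ_pow]
  have h := Sp.prod (κ := κ) Finset.univ (fun i => (A1 κ (z i)) ^ N) (fun _ => N + 1) (by
    intro i _
    obtain ⟨T, h1, h2⟩ := Sp.range (κ := κ) (N + 1) (fun r : Fin (N + 1) => z i ^ (r : ℕ))
    exact ⟨T, h1, (pow_le_span (z i) N).trans h2⟩)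
  rw [Finset.prod_const, Finset.card_univ] at h
  exact h

/-! ## The relation -/

theorem fin_rel {ι : Type} [Fintype ι] (z : ι → L) (y D : L) (hD0 : D ≠ 0) (A B n : ℕ)
    (S : Submodule κ L) (hS : Sp S n) (hn : n < (A + 1) * (B + 1) ^ Fintype.card ι)
    (hmem : ∀ (a : ℕ) (b : ι → ℕ), a ≤ A → (∀ i, b i ≤ B) → D * (y ^ a * ∏ i, z i ^ b i) ∈ S) :
    Rw κ z y (max A B) := by
  classical
  obtain ⟨T, hT, hST⟩ := hS
  have hnli : ¬ LinearIndependent κ (fun p : Fin (A + 1) × (ι → Fin (B + 1)) =>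
      D * (y ^ (p.1 : ℕ) * ∏ i, z i ^ (p.2 i : ℕ))) := by
    intro hli
    have h1 := linearIndependent_le_span' _ hli (T : Set L) (by
      rintro _ ⟨p, rfl⟩
      exact hST (hmem _ (fun i => (p.2 i : ℕ)) (Nat.lt_succ_iff.1 p.1.2)
        (fun i => Nat.lt_succ_iff.1 (p.2 i).2)))
    rw [Cardinal.mk_fintype] at h1
    have h2 : Fintype.card (Fin (A + 1) × (ι → Fin (B + 1))) ≤ Fintype.card (T : Set L) := by
      exact_mod_cast h1
    have h3 : Fintype.card (T : Set L) = T.card := by simp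
    rw [h3, Fintype.card_prod, Fintype.card_fun, Fintype.card_fin, Fintype.card_fin] at h2
    omega
  obtain ⟨g, hg, ⟨p0, hp0⟩⟩ := Fintype.not_linearIndependent_iff.1 hnli
  obtain ⟨ee, hee⟩ : ∃ ee : Fin (A + 1) × (ι → Fin (B + 1)) → (Option ι →₀ ℕ), ∀ p, ee p =
      Finsupp.equivFunOnFinite.symm (fun o : Option ι => o.elim (p.1 : ℕ) fun i => (p.2 i : ℕ)) :=
    ⟨_, fun _ => rfl⟩
  have ee0 : ∀ p, ee p none = (p.1 : ℕ) := by
    intro p
    rw [hee]
    rfl
  have ee1 : ∀ p i, ee p (some i) = (p.2 i : ℕ) := by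
    intro p i
    rw [hee]
    rfl
  obtain ⟨P, hPdef⟩ : ∃ P : MvPolynomial (Option ι) κ,
      P = ∑ p : Fin (A + 1) × (ι → Fin (B + 1)), monomial (ee p) (g p) := ⟨_, rfl⟩
  have hcf : ∀ m, coeff m P =
      ∑ p : Fin (A + 1) × (ι → Fin (B + 1)), if ee p = m then g p else 0 := by
    intro m
    rw [hPdef, coeff_sum]
    exact Finset.sum_congr rfl fun p _ => coeff_monomial _ _ _
  have hco : ∀ m, coeff m P ≠ 0 → ∃ p : Fin (A + 1) × (ι → Fin (B + 1)), m = ee p := by
    intro m hm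
    rw [hcf] at hm
    obtain ⟨p, -, hp⟩ := Finset.exists_ne_zero_of_sum_ne_zero hm
    by_contra hcon
    push Not at hcon
    exact hp (if_neg fun h => hcon p h.symm)
  refine ⟨P, ?_, ?_, ?_⟩
  · intro hP
    have h1 := hcf (ee p0)
    rw [hP, coeff_zero, Finset.sum_eq_single p0] at h1
    · rw [if_pos rfl] at h1
      exact hp0 h1.symm
    · intro p _ hne
      rw [if_neg]
      intro h2
      apply hne
      have e0 := congrArg (fun m : Option ι →₀ ℕ => m none) h2
      simp only [ee0] at e0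
      refine Prod.ext (Fin.ext e0) (funext fun i => Fin.ext ?_)
      have e1 := congrArg (fun m : Option ι →₀ ℕ => m (some i)) h2
      simp only [ee1] at e1
      exact e1
    · intro h
      exact absurd (Finset.mem_univ _) h
  · intro o
    rw [degreeOf_le_iff]
    intro m hm
    obtain ⟨p, rfl⟩ := hco m (mem_support_iff.1 hm)
    cases o with
    | none =>
      rw [ee0]
      exact (Nat.lt_succ_iff.1 p.1.2).trans (le_max_left _ _)
    | some i =>
      rw [ee1]
      exact (Nat.lt_succ_iff.1 (p.2 i).2).trans (le_max_right _ _)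
  · have h1 : aeval (fun o : Option ι => o.elim y z) P =
        ∑ p : Fin (A + 1) × (ι → Fin (B + 1)), g p • (y ^ (p.1 : ℕ) * ∏ i, z i ^ (p.2 i : ℕ)) := by
      rw [hPdef, map_sum]
      refine Finset.sum_congr rfl fun p _ => ?_
      rw [aeval_monomial, Algebra.smul_def, Finsupp.prod_fintype _ _ (fun i => pow_zero _),
        Fintype.prod_option, ee0]
      simp only [ee1, Option.elim_none, Option.elim_some]
    have h2 : D * aeval (fun o : Option ι => o.elim y z) P = 0 := by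
      rw [h1, Finset.mul_sum, ← hg]
      refine Finset.sum_congr rfl fun p _ => ?_
      rw [mul_smul_comm]
    exact (mul_eq_zero.1 h2).resolve_left hD0

theorem memb {ι : Type} [Fintype ι] {s : ℕ} (z : ι → L) (f : Fin s → L) (y lG : L)
    (l : Fin s → L) (d D A B : ℕ) (W : Fin s → Submodule κ L) (Wy : Submodule κ L)
    (H : ∀ (i : Fin s) (M : ℕ) (p : L), p ∈ (A1 κ (f i)) ^ M →
      l i ^ M * p ∈ ((AZ κ z) ^ d) ^ M * W i)
    (HG : ∀ (M : ℕ) (p : L), p ∈ (A1 κ y) ^ M → lG ^ M * p ∈ ((AZ κ f) ^ D) ^ M * Wy)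
    (a : ℕ) (b : ι → ℕ) (ha : a ≤ A) (hb : ∀ i, b i ≤ B) :
    ((∏ i, l i ^ (D * A)) * lG ^ A) * (y ^ a * ∏ i, z i ^ b i) ∈
      (AZ κ z) ^ (s * (d * (D * A)) + B) * ((∏ i, W i) * Wy) := by
  have K1 : ∀ u ∈ (AZ κ f) ^ (D * A), (∏ i, l i ^ (D * A)) * u ∈
      (AZ κ z) ^ (s * (d * (D * A))) * ∏ i, W i := by
    intro u hu
    rw [AZ_pow] at hu
    have h1 := mul_mem_prod Finset.univ (fun i => (A1 κ (f i)) ^ (D * A))
      (fun i => ((AZ κ z) ^ d) ^ (D * A) * W i) (fun i => l i ^ (D * A))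
      (fun i _ p hp => H i (D * A) p hp) u hu
    rw [Finset.prod_mul_distrib, Finset.prod_const, Finset.card_univ, Fintype.card_fin,
      ← pow_mul, ← pow_mul] at h1
    have e : d * (D * A * s) = s * (d * (D * A)) := by ring
    rw [e] at h1
    exact h1
  have K2 : ∀ e ∈ (AZ κ f) ^ (D * A) * Wy, (∏ i, l i ^ (D * A)) * e ∈
      (AZ κ z) ^ (s * (d * (D * A))) * (∏ i, W i) * Wy := by
    intro e he
    refine Submodule.mul_induction_on he ?_ ?_
    · intro u hu w hw
      have e3 : (∏ i, l i ^ (D * A)) * (u * w) = (∏ i, l i ^ (D * A)) * u * w :=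
        (mul_assoc _ _ _).symm
      rw [e3]
      exact Submodule.mul_mem_mul (K1 u hu) hw
    · intro p q hp hq
      rw [mul_add]
      exact Submodule.add_mem _ hp hq
  have h1 := HG A (y ^ a) (pow_mem_A1 y a A ha)
  rw [← pow_mul] at h1
  have h2 := Submodule.mul_mem_mul (K2 _ h1) (mon_mem (κ := κ) z B b hb)
  have e1 : ((∏ i, l i ^ (D * A)) * lG ^ A) * (y ^ a * ∏ i, z i ^ b i) =
      (∏ i, l i ^ (D * A)) * (lG ^ A * y ^ a) * ∏ i, z i ^ b i := by ring
  have e2 : (AZ κ z) ^ (s * (d * (D * A)) + B) * ((∏ i, W i) * Wy) =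
      (AZ κ z) ^ (s * (d * (D * A))) * (∏ i, W i) * Wy * (AZ κ z) ^ B := by
    rw [pow_add]
    ring
  rw [e1, e2]
  exact h2

theorem t : ELMW := by
  intro w s d D
  obtain ⟨A, hA⟩ : ∃ A, A = 2 ^ w * (d ^ s * D) := ⟨_, rfl⟩
  obtain ⟨B, hB⟩ : ∃ B, B = s * (d * (D * A)) := ⟨_, rfl⟩
  refine ⟨max A B, ?_⟩
  intro κ L ι _ _ _ _ z f y G hw hz hf hG hG0 hc
  choose u l hu hl H using fun i => rel_core z (f i) d hz (hf i)
  obtain ⟨uG, lG, huG, hlG, HG⟩ := G_core f y D G hG hG0 hc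
  have hD0 : (∏ i, l i ^ (D * A)) * lG ^ A ≠ 0 :=
    mul_ne_zero (Finset.prod_ne_zero_iff.2 fun i _ => pow_ne_zero _ (hl i)) (pow_ne_zero _ hlG)
  have hSp : Sp ((AZ κ z) ^ (s * (d * (D * A)) + B) *
      ((∏ i, Submodule.span κ (Set.range fun j : Fin (u i) => f i ^ (j : ℕ))) *
        Submodule.span κ (Set.range fun j : Fin uG => y ^ (j : ℕ))))
      ((s * (d * (D * A)) + B + 1) ^ Fintype.card ι * ((∏ i, u i) * uG)) :=
    (Sp.AZ z _).mul ((Sp.prod _ _ _ fun i _ => Sp.range _ _).mul (Sp.range _ _))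
  refine fin_rel z y _ hD0 A B _ _ hSp ?_ (fun a b ha hb => memb z f y lG l d D A B _ _ H HG a b ha hb)
  rw [hw, ← hB]
  have h1 : ∏ i, u i ≤ d ^ s := by
    calc ∏ i, u i ≤ ∏ _i : Fin s, d := Finset.prod_le_prod' fun i _ => hu i
      _ = d ^ s := by rw [Finset.prod_const, Finset.card_univ, Fintype.card_fin]
  have h2 : (∏ i, u i) * uG ≤ d ^ s * D := Nat.mul_le_mul h1 huG
  have h3 : (B + B + 1) ^ w ≤ 2 ^ w * (B + 1) ^ w := by
    rw [← mul_pow]
    exact Nat.pow_le_pow_left (by omega) w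
  calc (B + B + 1) ^ w * ((∏ i, u i) * uG) ≤ 2 ^ w * (B + 1) ^ w * (d ^ s * D) :=
        Nat.mul_le_mul h3 h2
    _ = A * (B + 1) ^ w := by rw [hA]; ring
    _ < (A + 1) * (B + 1) ^ w :=
        Nat.mul_lt_mul_of_pos_right (Nat.lt_succ_self A) (pow_pos (Nat.succ_pos B) w)

end Pool.Agent.Helper79.TN.ELMW
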